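import Pool.Agent.helper40.TW.SpecG

set_option autoImplicit false

open Complex MeasureTheory Metric
open scoped ComplexConjugate ArithmeticFunction.vonMangoldt

namespace Pool.Agent.TWG

open Pool.Agent.helper6.LD (wt)
open Pool.Agent.helper85.BVP (ex)
open Pool.Agent.TW (Win Pw)

theorem CORE_ne_one {q : ℕ} (hq : 2 ≤ q) {χ : DirichletCharacter ℂ q} (h : χ.IsPrimitive) : χ ≠ 1 := by
  rintro rfl
  have : NeZero q := ⟨by omega⟩
  rw [DirichletCharacter.isPrimitive_def, DirichletCharacter.conductor_one] at h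
  omega

theorem CORE_card (c₀ : ℝ) (q : ℕ) (hq : 2 ≤ q) : (((GC c₀ q).card : ℕ) : ℝ) ≤ q := by
  classical
  have : NeZero q := ⟨by omega⟩
  have h1 : (GC c₀ q).card ≤ Nat.totient q := by
    unfold GC
    refine le_trans (Finset.card_le_card (Finset.filter_subset _ _)) ?_
    rw [Finset.card_univ, ← Nat.card_eq_fintype_card]
    exact (DirichletCharacter.card_eq_totient_of_hasEnoughRootsOfUnity ℂ q).le
  exact_mod_cast h1.trans (Nat.totient_le q)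

/-- `a (K+1)^3 ≤ exp(K/4)` for large `K` -/
theorem CORE_exp (a : ℝ) (ha : 0 < a) : ∃ K₁ : ℝ, 1 ≤ K₁ ∧ ∀ K : ℝ, K₁ ≤ K → a * (K + 1) ^ 3 ≤ Real.exp (K / 4) := by
  refine ⟨max 1 (49152 * a), le_max_left _ _, fun K hK => ?_⟩
  have hK1 : 1 ≤ K := le_trans (le_max_left _ _) hK
  have hK2 : 49152 * a ≤ K := le_trans (le_max_right _ _) hK
  have h1 : (K / 4) ^ 4 / (Nat.factorial 4 : ℕ) ≤ Real.exp (K / 4) :=
    Real.pow_div_factorial_le_exp (K / 4) (by linarith) 4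
  refine le_trans ?_ h1
  have h2 : (K + 1) ^ 3 ≤ (2 * K) ^ 3 := pow_le_pow_left₀ (by linarith) (by linarith) 3
  have h3 : a * (K + 1) ^ 3 ≤ a * (2 * K) ^ 3 := mul_le_mul_of_nonneg_left h2 ha.le
  refine le_trans h3 ?_
  have h4 : (K / 4) ^ 4 / ((Nat.factorial 4 : ℕ) : ℝ) = K * K ^ 3 / 6144 := by
    norm_num [Nat.factorial]
    ring
  rw [h4]
  have h5 : a * (2 * K) ^ 3 = (8 * a) * K ^ 3 := by ring
  rw [h5]
  have h6 : 0 ≤ K ^ 3 := by positivity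
  have h7 : 8 * a ≤ K / 6144 := by linarith
  have h8 : (8 * a) * K ^ 3 ≤ (K / 6144) * K ^ 3 := mul_le_mul_of_nonneg_right h7 h6
  linarith

/-- the second term -/
theorem CORE_second {C η : ℝ} (hC : 0 < C) (hη : 0 < η) {K₁ : ℝ}
    (hK₁ : ∀ K : ℝ, K₁ ≤ K → (24 * C / η) * (K + 1) ^ 3 ≤ Real.exp (K / 4)) {M K : ℕ} (hM : 3 ≤ M)
    (hK : 16 * Real.log M ≤ K) (hKK : K₁ ≤ K) {h : ℝ} (h1 : 1 / (M : ℝ) ≤ h) :
    (M : ℝ) ^ 2 * (C * (Real.log M * ((K : ℝ) + 1) ^ 2 * 8 ^ (K + 1))) ≤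
      η / 3 * (h * 16 ^ K / √((K : ℝ) + 1)) := by
  have hM0 : (0 : ℝ) < M := by
    have : (3 : ℝ) ≤ M := by exact_mod_cast hM
    linarith
  have hK0 : (0 : ℝ) ≤ K := by positivity
  have hs : 0 < √((K : ℝ) + 1) := Real.sqrt_pos.2 (by linarith)
  have hs1 : √((K : ℝ) + 1) ≤ (K : ℝ) + 1 := by
    rw [Real.sqrt_le_left (by linarith)]
    nlinarith
  have hlog : Real.log M ≤ M := (Real.log_le_self hM0.le)
  have hlog0 : 0 ≤ Real.log M := Real.log_nonneg (by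
    have : (3 : ℝ) ≤ M := by exact_mod_cast hM
    linarith)
  have hexp : (M : ℝ) ^ 4 * ((24 * C / η) * ((K : ℝ) + 1) ^ 3) ≤ 2 ^ K := by
    have e1 : (M : ℝ) ^ 4 ≤ Real.exp ((K : ℝ) / 4) := by
      rw [← Real.exp_log (pow_pos hM0 4), Real.exp_le_exp, Real.log_pow]
      push_cast
      linarith
    have e2 := hK₁ K hKK
    have e3 : Real.exp ((K : ℝ) / 4) * Real.exp ((K : ℝ) / 4) ≤ 2 ^ K := by
      rw [← Real.exp_add]
      have e4 : (2 : ℝ) ^ K = Real.exp (K * Real.log 2) := by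
        rw [Real.exp_nat_mul, Real.exp_log (by norm_num)]
      rw [e4, Real.exp_le_exp]
      have := Real.log_two_gt_d9
      nlinarith
    refine le_trans (mul_le_mul e1 e2 (by positivity) (by positivity)) e3
  have h8 : (16 : ℝ) ^ K = 8 ^ K * 2 ^ K := by
    rw [← mul_pow]
    norm_num
  rw [← mul_div_assoc, le_div_iff₀ hs]
  have hMh : 1 ≤ M * h := by
    rw [div_le_iff₀ hM0] at h1
    linarith
  have hh0 : 0 < h := lt_of_lt_of_le (by positivity) h1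
  have key : (M : ℝ) ^ 2 * (C * (Real.log M * ((K : ℝ) + 1) ^ 2 * 8 ^ (K + 1))) * √((K : ℝ) + 1) ≤
      (M : ℝ) ^ 2 * (C * (M * ((K : ℝ) + 1) ^ 2 * 8 ^ (K + 1))) * ((K : ℝ) + 1) := by
    apply mul_le_mul _ hs1 hs.le (by positivity)
    apply mul_le_mul_of_nonneg_left _ (by positivity)
    apply mul_le_mul_of_nonneg_left _ hC.le
    apply mul_le_mul_of_nonneg_right _ (by positivity)
    exact mul_le_mul_of_nonneg_right hlog (by positivity)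
  refine key.trans ?_
  have e5 : (M : ℝ) ^ 2 * (C * (M * ((K : ℝ) + 1) ^ 2 * 8 ^ (K + 1))) * ((K : ℝ) + 1) =
      (8 * C * (M : ℝ) ^ 3 * ((K : ℝ) + 1) ^ 3) * 8 ^ K := by
    rw [pow_succ (8 : ℝ) K]
    ring
  rw [e5, h8]
  have e6 : η / 3 * (h * (8 ^ K * 2 ^ K)) = (η / 3 * h * 2 ^ K) * 8 ^ K := by ring
  rw [e6]
  apply mul_le_mul_of_nonneg_right _ (by positivity)
  have e7 : (M : ℝ) ^ 4 * (24 * C) * ((K : ℝ) + 1) ^ 3 ≤ η * 2 ^ K := by
    have e8 : (M : ℝ) ^ 4 * ((24 * C / η) * ((K : ℝ) + 1) ^ 3) = ((M : ℝ) ^ 4 * (24 * C) * ((K : ℝ) + 1) ^ 3) / η := by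
      field_simp
    rw [e8, div_le_iff₀ hη] at hexp
    linarith
  have e9 : 8 * C * (M : ℝ) ^ 3 * ((K : ℝ) + 1) ^ 3 ≤ (8 * C * (M : ℝ) ^ 3 * ((K : ℝ) + 1) ^ 3) * (M * h) := by
    apply le_mul_of_one_le_right (by positivity) hMh
  have e10 : (8 * C * (M : ℝ) ^ 3 * ((K : ℝ) + 1) ^ 3) * (M * h) = ((M : ℝ) ^ 4 * (24 * C) * ((K : ℝ) + 1) ^ 3) * (h / 3) := by
    ring
  rw [e10] at e9
  have e11 := mul_le_mul_of_nonneg_right e7 (show 0 ≤ h / 3 by positivity)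
  have e12 : η * 2 ^ K * (h / 3) = η / 3 * h * 2 ^ K := by ring
  linarith

/-- the third term -/
theorem CORE_third {C η : ℝ} (hC : 0 < C) (hη : 0 < η) {M K : ℕ} (hM : 3 ≤ M)
    (hMb : 2 * (48 * C / η) ^ 2 ≤ M) (hKM : K ≤ M) {h : ℝ} (h1 : 1 / (M : ℝ) ≤ h) :
    (M : ℝ) ^ 2 * (C * (16 ^ (K + 1) / (h * (M : ℝ) ^ 5))) ≤ η / 3 * (h * 16 ^ K / √((K : ℝ) + 1)) := by
  have hM3 : (3 : ℝ) ≤ M := by exact_mod_cast hM
  have hM0 : (0 : ℝ) < M := by linarith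
  have hK0 : (0 : ℝ) ≤ K := by positivity
  have hKM' : (K : ℝ) ≤ M := by exact_mod_cast hKM
  have hs : 0 < √((K : ℝ) + 1) := Real.sqrt_pos.2 (by linarith)
  have hh0 : 0 < h := lt_of_lt_of_le (by positivity) h1
  have hMh : 1 ≤ M * h := by
    rw [div_le_iff₀ hM0] at h1
    linarith
  -- √(K+1) ≤ √(2M) and 48 C √(2M) ≤ η M
  have hsq : 48 * C * √((K : ℝ) + 1) ≤ η * M := by
    have f1 : √((K : ℝ) + 1) ≤ √(2 * M) := Real.sqrt_le_sqrt (by linarith)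
    have f2 : 48 * C / η * √(2 * M) ≤ M := by
      have f3 : (48 * C / η * √(2 * M)) ^ 2 ≤ (M : ℝ) ^ 2 := by
        rw [mul_pow, Real.sq_sqrt (by positivity)]
        nlinarith
      exact le_of_sq_le_sq f3 hM0.le
    have f4 : 48 * C * √(2 * M) ≤ η * M := by
      have : 48 * C / η * √(2 * M) = 48 * C * √(2 * M) / η := by ring
      rw [this, div_le_iff₀ hη] at f2
      linarith
    exact le_trans (mul_le_mul_of_nonneg_left f1 (by positivity)) f4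
  have g1 : (M : ℝ) ^ 2 * (C * (16 ^ (K + 1) / (h * (M : ℝ) ^ 5))) = (16 * C * 16 ^ K) / (h * (M : ℝ) ^ 3) := by
    rw [pow_succ (16 : ℝ) K]
    field_simp
  have g2 : η / 3 * (h * 16 ^ K / √((K : ℝ) + 1)) = (η / 3 * h * 16 ^ K) / √((K : ℝ) + 1) := by ring
  rw [g1, g2, div_le_div_iff₀ (by positivity) hs]
  have g3 : 1 ≤ (M * h) ^ 2 := one_le_pow₀ hMh
  have g4 : η * M ≤ η * M * (M * h) ^ 2 := le_mul_of_one_le_right (by positivity) g3
  have g5 : 48 * C * √((K : ℝ) + 1) ≤ η * M * (M * h) ^ 2 := hsq.trans g4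
  have g6 := mul_le_mul_of_nonneg_right g5 (show (0 : ℝ) ≤ 16 ^ K / 3 by positivity)
  calc 16 * C * 16 ^ K * √((K : ℝ) + 1) = 48 * C * √((K : ℝ) + 1) * (16 ^ K / 3) := by ring
    _ ≤ η * M * (M * h) ^ 2 * (16 ^ K / 3) := g6
    _ = η / 3 * h * 16 ^ K * (h * (M : ℝ) ^ 3) := by ring

theorem CORE (hDGS : DGS_stmt) (hINV : INV_stmt) (hSPL : SPL_stmt) (_hZFI : ZFI_stmt) : CORE_stmt := by
  classical
  intro c₀ η hc₀ hη
  obtain ⟨C, M₁, hC, hM₁, hspl⟩ := hSPL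
  obtain ⟨κ₁, M₂, hκ₁, hM₂, hdgs⟩ := hDGS c₀ (η / (3 * C)) hc₀ (by positivity)
  obtain ⟨K₁, hK₁1, hK₁⟩ := CORE_exp (24 * C / η) (by positivity)
  refine ⟨max κ₁ 16, max (max M₁ M₂) (max ⌈2 * (48 * C / η) ^ 2⌉₊ ⌈Real.exp K₁⌉₊),
    le_trans hκ₁ (le_max_left _ _), le_trans hM₁ (le_trans (le_max_left _ _) (le_max_left _ _)), ?_⟩
  intro M hM K hK hKM h u₀ h1 h2
  have m1 : M₁ ≤ M := le_trans (le_trans (le_max_left _ _) (le_max_left _ _)) hM
  have m2 : M₂ ≤ M := le_trans (le_trans (le_max_right _ _) (le_max_left _ _)) hM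
  have m3 : 2 * (48 * C / η) ^ 2 ≤ (M : ℝ) := by
    have : ⌈2 * (48 * C / η) ^ 2⌉₊ ≤ M := le_trans (le_trans (le_max_left _ _) (le_max_right _ _)) hM
    exact le_trans (Nat.le_ceil _) (by exact_mod_cast this)
  have m4 : Real.exp K₁ ≤ (M : ℝ) := by
    have : ⌈Real.exp K₁⌉₊ ≤ M := le_trans (le_trans (le_max_right _ _) (le_max_right _ _)) hM
    exact le_trans (Nat.le_ceil _) (by exact_mod_cast this)
  have hM3 : 3 ≤ M := hM₁.trans m1
  have hM3' : (3 : ℝ) ≤ M := by exact_mod_cast hM3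
  have hM0 : (0 : ℝ) < M := by linarith
  have hlog0 : 0 ≤ Real.log M := Real.log_nonneg (by linarith)
  have hK16 : 16 * Real.log M ≤ K := le_trans (mul_le_mul_of_nonneg_right (le_max_right _ _) hlog0) hK
  have hKκ : κ₁ * Real.log M ≤ K := le_trans (mul_le_mul_of_nonneg_right (le_max_left _ _) hlog0) hK
  have hKK₁ : K₁ ≤ K := by
    have : K₁ ≤ Real.log M := by
      rw [Real.le_log_iff_exp_le hM0]
      exact m4
    linarith
  have hK1 : 1 ≤ K := by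
    have : (1 : ℝ) ≤ K := by linarith
    exact_mod_cast this
  have hh0 : 0 < h := lt_of_lt_of_le (by positivity) h1
  have hs : 0 < √((K : ℝ) + 1) := Real.sqrt_pos.2 (by positivity)
  set A : ℝ := h * 16 ^ K / √((K : ℝ) + 1) with hA
  have hA0 : 0 < A := by rw [hA]; positivity
  set E : ℝ := C * (Real.log M * ((K : ℝ) + 1) ^ 2 * 8 ^ (K + 1)) + C * (16 ^ (K + 1) / (h * (M : ℝ) ^ 5)) with hE
  have hE0 : 0 ≤ E := by
    rw [hE]
    positivity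
  have hterm : ∀ q ∈ Finset.Icc 2 M, ∀ χ ∈ GC c₀ q,
      ‖∑' n : ℕ, (wt (1 + 1 / 16) (K + 1) n : ℂ) * χ n * ((tri h (Real.log n - u₀) : ℝ) : ℂ)‖ ≤
        C * A * (∑ ρ ∈ ZS χ (bx (1 / 8) ((M : ℝ) ^ 6)), (mz χ ρ : ℝ) * ((1 + 16 * (1 - ρ.re)) ^ K)⁻¹) + E := by
    intro q hq χ hχ
    rw [Finset.mem_Icc] at hq
    have hχ' := hχ
    unfold GC at hχ'
    rw [Finset.mem_filter] at hχ'
    have hAdm : Adm M χ := ⟨hq.1, hq.2, CORE_ne_one hq.1 hχ'.2.1⟩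
    obtain ⟨-, i1⟩ := hINV q χ (K + 1) (1 / 16) h u₀ (by omega) (by omega) (by norm_num) hh0
    have i2 := hspl M m1 q χ hAdm K h hK1 hh0
    have i0 : 0 ≤ ∫ v : ℝ, tau h v * ‖PP χ (K + 1) (1 / 16) v‖ := by
      apply integral_nonneg
      intro v
      apply mul_nonneg _ (norm_nonneg _)
      unfold tau
      split_ifs
      · exact hh0.le
      · have := Real.cos_le_one (h * v)
        apply div_nonneg
        · linarith
        · positivity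
    have i3 : 1 / (2 * Real.pi) ≤ 1 := by
      rw [div_le_one (by positivity)]
      have := Real.pi_gt_three
      linarith
    calc _ ≤ 1 / (2 * Real.pi) * ∫ v : ℝ, tau h v * ‖PP χ (K + 1) (1 / 16) v‖ := i1
      _ ≤ 1 * ∫ v : ℝ, tau h v * ‖PP χ (K + 1) (1 / 16) v‖ := mul_le_mul_of_nonneg_right i3 i0
      _ ≤ _ := by
        rw [one_mul]
        refine i2.trans (le_of_eq ?_)
        rw [hE, hA]
        ring
  have hsum1 : ∑ q ∈ Finset.Icc 2 M, ∑ χ ∈ GC c₀ q,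
      ‖∑' n : ℕ, (wt (1 + 1 / 16) (K + 1) n : ℂ) * χ n * ((tri h (Real.log n - u₀) : ℝ) : ℂ)‖ ≤
      ∑ q ∈ Finset.Icc 2 M, ∑ χ ∈ GC c₀ q,
        (C * A * (∑ ρ ∈ ZS χ (bx (1 / 8) ((M : ℝ) ^ 6)), (mz χ ρ : ℝ) * ((1 + 16 * (1 - ρ.re)) ^ K)⁻¹) + E) :=
    Finset.sum_le_sum fun q hq => Finset.sum_le_sum fun χ hχ => hterm q hq χ hχ
  refine hsum1.trans ?_
  simp only [Finset.sum_add_distrib, Finset.sum_const, nsmul_eq_mul]
  simp only [← Finset.mul_sum]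
  have j1 := hdgs M m2 K hKκ
  have j2 : C * A * (∑ q ∈ Finset.Icc 2 M, ∑ χ ∈ GC c₀ q, ∑ ρ ∈ ZS χ (bx (1 / 8) ((M : ℝ) ^ 6)),
      (mz χ ρ : ℝ) * ((1 + 16 * (1 - ρ.re)) ^ K)⁻¹) ≤ η / 3 * A := by
    refine (mul_le_mul_of_nonneg_left j1 (by positivity)).trans (le_of_eq ?_)
    field_simp
  have j3 : ∑ q ∈ Finset.Icc 2 M, ((GC c₀ q).card : ℝ) * E ≤ (M : ℝ) ^ 2 * E := by
    rw [← Finset.sum_mul]
    apply mul_le_mul_of_nonneg_right _ hE0
    have : ∀ q ∈ Finset.Icc 2 M, ((GC c₀ q).card : ℝ) ≤ M := by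
      intro q hq
      rw [Finset.mem_Icc] at hq
      exact (CORE_card c₀ q hq.1).trans (by exact_mod_cast hq.2)
    refine (Finset.sum_le_sum this).trans ?_
    rw [Finset.sum_const, nsmul_eq_mul, sq]
    apply mul_le_mul_of_nonneg_right _ hM0.le
    have : (Finset.Icc 2 M).card ≤ M := by
      rw [Nat.card_Icc]
      omega
    exact_mod_cast this
  have j4 := CORE_second hC hη hK₁ hM3 hK16 hKK₁ h1
  have j5 := CORE_third hC hη hM3 m3 hKM h1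
  have j6 : (M : ℝ) ^ 2 * E ≤ η / 3 * A + η / 3 * A := by
    rw [hE, mul_add]
    exact add_le_add j4 j5
  have j7 : η * A = η / 3 * A + (η / 3 * A + η / 3 * A) := by ring
  rw [j7]
  exact add_le_add j2 (j3.trans j6)

end Pool.Agent.TWG
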